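import Pool.Agent.Helper87.CMC.MMAIN
import Pool.Agent.Helper87.CMC.MFR1
import Pool.Agent.Helper87.CMC.MFR2

set_option autoImplicit false

namespace Pool.Agent.Results.MP_479d4c_gt.CmcDiscBothSides

open Set Metric
open scoped ContDiff

/-- `Ψ`, restricted to the closed unit disc of `ℂ = ℝ²` (a compact surface with boundary the unit
circle), is a smooth embedding into `ℝ³` with constant mean curvature `H`: `Ψ` is smooth on an open
neighbourhood `V` of the closed disc, its differential is injective at every point of `V`, `Ψ` is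
injective on the closed disc, and there is a smooth unit normal field `n` along `Ψ` on `V` whose
shape operator `S`, defined by `dn = - dΨ ∘ S`, has trace `2 H` at every point of `V`. -/
def IsEmbeddedCmcDisc (Ψ : ℂ → EuclideanSpace ℝ (Fin 3)) (H : ℝ) : Prop :=
  ∃ V : Set ℂ, IsOpen V ∧ closedBall (0 : ℂ) 1 ⊆ V ∧ ContDiffOn ℝ ∞ Ψ V ∧
    (∀ z ∈ V, Function.Injective (fderiv ℝ Ψ z)) ∧
    InjOn Ψ (closedBall 0 1) ∧
    ∃ n : ℂ → EuclideanSpace ℝ (Fin 3), ContDiffOn ℝ ∞ n V ∧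
      ∀ z ∈ V, ‖n z‖ = 1 ∧ (∀ v : ℂ, inner ℝ (fderiv ℝ Ψ z v) (n z) = 0) ∧
        ∃ S : ℂ →L[ℝ] ℂ, (∀ v : ℂ, fderiv ℝ n z v = - fderiv ℝ Ψ z (S v)) ∧
          LinearMap.trace ℝ ℂ (S : ℂ →ₗ[ℝ] ℂ) = 2 * H

/-- **Theorem (disproof of Q1).** There are a compact convex subset `K`, with interior points, of
the plane `P = {x ∈ ℝ³ | x₃ = 0}` (identified with `ℂ` by `(x₁, x₂, 0) ↔ x₁ + i x₂`) and a smooth
compact embedded disc `Ψ` in `ℝ³` of constant mean curvature `1`, whose boundary is exactly the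
convex closed curve `∂K ⊂ P`, and which has points strictly on both sides of `P`. -/
theorem result : ∃ (Ψ : ℂ → EuclideanSpace ℝ (Fin 3)) (K : Set ℂ),
    IsEmbeddedCmcDisc Ψ 1 ∧
    Convex ℝ K ∧ IsCompact K ∧ (interior K).Nonempty ∧
    Ψ '' (sphere (0 : ℂ) 1) =
      {x | x 2 = 0 ∧ ((x 0 : ℂ) + (x 1 : ℂ) * Complex.I) ∈ frontier K} ∧
    (∃ z ∈ closedBall (0 : ℂ) 1, 0 < Ψ z 2) ∧
    (∃ z ∈ closedBall (0 : ℂ) 1, Ψ z 2 < 0) := by
  obtain ⟨A, i1, i2, i3, L, F, C, ε0, C1, Xh, hF, hX, hC, hC'⟩ :=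
    Pool.Agent.Helper87.CMC.exists_data
  obtain ⟨C3, h⟩ := Pool.Agent.Helper87.CMC.frame_of_data L F hF C ε0 C1 Xh hX hC hC'
  exact Pool.Agent.Helper87.CMC.main_of_frame h

end Pool.Agent.Results.MP_479d4c_gt.CmcDiscBothSides
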